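import Mathlib.Tactic.Linarith.Frontend
import Mathlib.Tactic.NormNum.Ineq
import Mathlib.Data.Finset.Max
import Mathlib.Data.Fintype.BigOperators
import Mathlib.Data.Fintype.Powerset
import Mathlib.Algebra.Order.BigOperators.Group.Finset
import Mathlib.Data.Nat.Log
import Mathlib.Algebra.Notation.Lemmas
import Mathlib.Data.Nat.Choose.Bounds
import Mathlib.Data.Int.ConditionallyCompleteOrder
import Mathlib.Data.Int.Star
import Mathlib.Algebra.Order.Ring.Star
import Mathlib.Tactic.Algebra.Basic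

-- ======== part 0: formerly Pool.Agent.MP_038f7f_co.h80.Greedy
section MrgPart0

set_option autoImplicit false

namespace Pool.Agent.MP_038f7f_co.H80

open Finset

variable {Λ S J : Type} [Fintype Λ] [Fintype S] [DecidableEq Λ] [DecidableEq S] [DecidableEq J]

/-- inside a small set of systems any two systems are separated by at most one link -/
def Bridge (src t : Λ → S) (P : Finset Λ) (M : ℕ) : Prop :=
  (∀ l ∈ P, src l ≠ t l) ∧ ∀ T : Finset S, T.card ≤ M → ∀ γ ∈ T, ∀ σ ∈ T, γ ≠ σ →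
    ∃ (χ : S → Bool) (o : Option Λ), χ γ ≠ χ σ ∧
      ∀ k ∈ P, src k ∈ T → t k ∈ T → some k ≠ o → χ (src k) = χ (t k)

def nbr (src t : Λ → S) (P : Finset Λ) (x : S) : Finset S :=
  (P.filter (fun l => src l = x)).image t ∪ (P.filter (fun l => t l = x)).image src

def ball (src t : Λ → S) (P : Finset Λ) (x : S) : ℕ → Finset S
  | 0 => {x}
  | k + 1 => ball src t P x k ∪ (ball src t P x k).biUnion (nbr src t P)

omit [Fintype Λ] [Fintype S] [DecidableEq Λ] in
theorem ball_card {src t : Λ → S} {P : Finset Λ} {d : ℕ} (h : ∀ y, (nbr src t P y).card ≤ d)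
    (x : S) (k : ℕ) : (ball src t P x k).card ≤ (1 + d) ^ k := by
  induction k with
  | zero => simp [ball]
  | succ k ih =>
    have h1 : ((ball src t P x k).biUnion (nbr src t P)).card ≤ (ball src t P x k).card * d :=
      card_biUnion_le_card_mul _ _ _ (fun y _ => h y)
    have h2 := card_union_le (ball src t P x k) ((ball src t P x k).biUnion (nbr src t P))
    calc (ball src t P x (k + 1)).card ≤ (ball src t P x k).card * (1 + d) := by
          rw [ball]; nlinarith
      _ ≤ (1 + d) ^ k * (1 + d) := Nat.mul_le_mul_right _ ih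
      _ = (1 + d) ^ (k + 1) := by ring

omit [Fintype Λ] [Fintype S] [DecidableEq Λ] in
theorem exists_closed (src t : Λ → S) (P : Finset Λ) {x : S} {T : Finset S} (hx : x ∈ T) (k : ℕ) :
    ∃ C : Finset S, x ∈ C ∧ C ⊆ T ∧ C ⊆ ball src t P x k ∧
      ((∀ l ∈ P, src l ∈ T → t l ∈ T → (src l ∈ C ↔ t l ∈ C)) ∨ k + 1 ≤ C.card) := by
  induction k with
  | zero => exact ⟨{x}, by simp, by simpa using hx, by simp [ball], Or.inr (by simp)⟩
  | succ k ih =>
    obtain ⟨C, h1, h2, h3, h4⟩ := ih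
    by_cases hc : ∀ l ∈ P, src l ∈ T → t l ∈ T → (src l ∈ C ↔ t l ∈ C)
    · exact ⟨C, h1, h2, h3.trans subset_union_left, Or.inl hc⟩
    · have h5 := h4.resolve_left hc
      have : ∃ y ∈ T, y ∉ C ∧ ∃ z ∈ C, y ∈ nbr src t P z := by
        by_contra hn
        apply hc
        intro l hl hs ht
        constructor
        · intro h
          by_contra h'
          exact hn ⟨_, ht, h', _, h, mem_union_left _
            (mem_image.mpr ⟨l, mem_filter.mpr ⟨hl, rfl⟩, rfl⟩)⟩
        · intro h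
          by_contra h'
          exact hn ⟨_, hs, h', _, h, mem_union_right _
            (mem_image.mpr ⟨l, mem_filter.mpr ⟨hl, rfl⟩, rfl⟩)⟩
      obtain ⟨y, hy, hyC, z, hz, hyz⟩ := this
      refine ⟨insert y C, mem_insert_of_mem h1, insert_subset hy h2, insert_subset
        (mem_union_right _ (mem_biUnion.mpr ⟨z, h3 hz, hyz⟩)) (h3.trans subset_union_left),
        Or.inr ?_⟩
      rw [card_insert_of_notMem hyC]
      omega

theorem greedy (src : Λ → S) (dc : Λ → J) (col : S → J) (a Δ Q M : ℕ)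
    (hsrc : ∀ x, (univ.filter (fun l => src l = x)).card ≤ a)
    (hQ : ∀ j, Q ≤ (univ.filter (fun x => col x = j)).card)
    (hc : Fintype.card Λ + Δ * (1 + (a + Δ)) ^ M < Δ * Q) :
    ∃ t : Λ → S, (∀ l, col (t l) = dc l) ∧ Bridge src t univ M := by
  have key : ∀ P : Finset Λ, ∃ t : Λ → S, (∀ l ∈ P, col (t l) = dc l) ∧
      (∀ x, (P.filter (fun l => t l = x)).card ≤ Δ) ∧ Bridge src t P M := by
    intro P
    induction P using Finset.induction_on with
    | empty =>
      exact ⟨src, by simp, by simp, by simp, fun T _ γ _ σ _ h =>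
        ⟨fun x => decide (x = γ), none, by simp [h.symm], by simp⟩⟩
    | insert l0 P hl0 ih =>
      obtain ⟨t, h1, h2, h3⟩ := ih
      have hn : ∀ y, (nbr src t P y).card ≤ a + Δ := by
        intro y
        refine (card_union_le _ _).trans (Nat.add_le_add (card_image_le.trans ?_)
          (card_image_le.trans (h2 y)))
        exact (card_le_card (filter_subset_filter _ (subset_univ P))).trans (hsrc y)
      have hb := ball_card hn (src l0) M
      let Full := univ.filter (fun x => Δ ≤ (P.filter (fun l => t l = x)).card)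
      have hfull : Δ * Full.card ≤ Fintype.card Λ := by
        have e1 := card_eq_sum_card_fiberwise (f := t) (s := P) (t := univ)
          (fun _ _ => mem_coe.mpr (mem_univ _))
        have e2 : Full.card • Δ ≤ ∑ x ∈ Full, (P.filter (fun l => t l = x)).card :=
          card_nsmul_le_sum _ _ _ (fun x hx => (mem_filter.mp hx).2)
        have e3 : ∑ x ∈ Full, (P.filter (fun l => t l = x)).card ≤
            ∑ x ∈ univ, (P.filter (fun l => t l = x)).card :=
          sum_le_sum_of_subset (subset_univ _)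
        have e4 := card_le_univ P
        rw [smul_eq_mul, mul_comm] at e2
        omega
      have hlt : (Full ∪ ball src t P (src l0) M).card <
          (univ.filter (fun x => col x = dc l0)).card := by
        refine lt_of_lt_of_le ?_ (hQ _)
        have := card_union_le Full (ball src t P (src l0) M)
        by_contra hcon
        have h5 : Q ≤ Full.card + (1 + (a + Δ)) ^ M := by omega
        have h6 := Nat.mul_le_mul_left Δ h5
        rw [mul_add] at h6
        omega
      obtain ⟨δ, hδ, hδ'⟩ := exists_mem_notMem_of_card_lt_card hlt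
      rw [mem_union, not_or] at hδ'
      have hne : ∀ l ∈ P, Function.update t l0 δ l = t l := fun l hl =>
        Function.update_of_ne (fun h : l = l0 => hl0 (h ▸ hl)) _ _
      refine ⟨Function.update t l0 δ, ?_, ?_, ?_⟩
      · intro l hl
        rcases mem_insert.mp hl with rfl | hl
        · rw [Function.update_self]; exact (mem_filter.mp hδ).2
        · rw [hne l hl]; exact h1 l hl
      · intro x
        rw [filter_insert, Function.update_self,
          filter_congr (q := fun l => t l = x) (fun l hl => by rw [hne l hl])]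
        split_ifs with hx
        · subst hx
          have : ¬ Δ ≤ (P.filter (fun l => t l = δ)).card := fun h =>
            hδ'.1 (mem_filter.mpr ⟨mem_univ _, h⟩)
          have := card_insert_le l0 (P.filter (fun l => t l = δ))
          omega
        · exact h2 x
      · refine ⟨fun l hl => ?_, fun T hT γ hγ σ hσ hγσ => ?_⟩
        · rcases mem_insert.mp hl with rfl | hl
          · rw [Function.update_self]
            rintro rfl
            obtain ⟨C, c1, -, c3, -⟩ := exists_closed src t P (mem_singleton_self (src l)) M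
            exact hδ'.2 (c3 c1)
          · rw [hne l hl]; exact h3.1 l hl
        obtain ⟨χ, o, x1, x2⟩ := h3.2 T hT γ hγ σ hσ hγσ
        by_cases h0 : src l0 ∈ T ∧ δ ∈ T
        · obtain ⟨C, c1, c2, c3, c4⟩ := exists_closed src t P h0.1 M
          have c5 := c4.resolve_right (by have := card_le_card c2; omega)
          have c6 : δ ∉ C := fun h => hδ'.2 (c3 h)
          by_cases hC : γ ∈ C ↔ σ ∈ C
          · refine ⟨fun x => if x ∈ C then xor (χ x) (xor (χ (src l0)) (χ δ)) else χ x, o, ?_,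
              fun k hk ks kt kl => ?_⟩
            · simp only [hC]
              split_ifs
              · intro h
                exact x1 (by simpa using h)
              · exact x1
            · rcases mem_insert.mp hk with rfl | hk'
              · simp [c1, c6]
              · rw [hne k hk'] at kt ⊢
                simp only [c5 k hk' ks kt, x2 k hk' ks kt kl]
          · refine ⟨fun x => decide (x ∈ C), some l0, by simpa using hC,
              fun k hk ks kt kl => ?_⟩
            have hk' := (mem_insert.mp hk).resolve_left (fun h => kl (by rw [h]))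
            rw [hne k hk'] at kt ⊢
            simp only [c5 k hk' ks kt]
        · refine ⟨χ, o, x1, fun k hk ks kt kl => ?_⟩
          rcases mem_insert.mp hk with rfl | hk'
          · rw [Function.update_self] at kt
            exact absurd ⟨ks, kt⟩ h0
          · rw [hne k hk'] at kt ⊢
            exact x2 k hk' ks kt kl
  obtain ⟨t, h1, -, h3⟩ := key univ
  exact ⟨t, fun l => h1 l (mem_univ l), h3⟩

end Pool.Agent.MP_038f7f_co.H80

end MrgPart0

-- ======== part 1: formerly Pool.Agent.MP_038f7f_co.h80.Core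
section MrgPart1

set_option autoImplicit false

namespace Pool.Agent.MP_038f7f_co.H80

open Finset

/-- r-sets containing two distinct points from a given list of pairs -/
theorem card_pairs_le {n r : ℕ} (G : Finset (Finset (Fin n))) (P : Finset (Fin n × Fin n))
    (hG : ∀ s ∈ G, s.card = r) (h : ∀ s ∈ G, ∃ p ∈ P, p.1 ≠ p.2 ∧ p.1 ∈ s ∧ p.2 ∈ s) :
    G.card ≤ P.card * n.choose (r - 2) := by
  have h1 : G ⊆ (P ×ˢ powersetCard (r - 2) (univ : Finset (Fin n))).image
      (fun q => insert q.1.1 (insert q.1.2 q.2)) := by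
    intro s hs
    obtain ⟨p, hp, hne, h1, h2⟩ := h s hs
    have h3 : p.2 ∈ s.erase p.1 := mem_erase.mpr ⟨hne.symm, h2⟩
    refine mem_image.mpr ⟨(p, (s.erase p.1).erase p.2), mem_product.mpr ⟨hp, ?_⟩, ?_⟩
    · rw [mem_powersetCard]
      refine ⟨subset_univ _, ?_⟩
      simp only
      rw [card_erase_of_mem h3, card_erase_of_mem h1, hG s hs]
      omega
    · simp only
      rw [insert_erase h3, insert_erase h1]
  refine (card_le_card h1).trans (card_image_le.trans ?_)
  rw [card_product, card_powersetCard, card_univ, Fintype.card_fin]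

theorem exists_saturated {n m r : ℕ} (F : Finset (Finset (Fin m))) (G0 : Finset (Finset (Fin n)))
    (h1 : ∀ s ∈ G0, s.card = r) (h2 : ¬ ∃ f : Fin m ↪ Fin n, ∀ e ∈ F, e.map f ∈ G0) :
    ∃ G : Finset (Finset (Fin n)), G0 ⊆ G ∧ (∀ s ∈ G, s.card = r) ∧
      (¬ ∃ f : Fin m ↪ Fin n, ∀ e ∈ F, e.map f ∈ G) ∧
      ∀ s : Finset (Fin n), s.card = r → s ∉ G →
        ∃ f : Fin m ↪ Fin n, ∀ e ∈ F, e.map f ∈ insert s G := by
  classical
  obtain ⟨G, hG, hmax⟩ := exists_max_image (univ.filter (fun G : Finset (Finset (Fin n)) =>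
    G0 ⊆ G ∧ (∀ s ∈ G, s.card = r) ∧ ¬ ∃ f : Fin m ↪ Fin n, ∀ e ∈ F, e.map f ∈ G)) card
    ⟨G0, mem_filter.mpr ⟨mem_univ _, Subset.refl _, h1, h2⟩⟩
  obtain ⟨-, g1, g2, g3⟩ := mem_filter.mp hG
  refine ⟨G, g1, g2, g3, fun s hs hsG => ?_⟩
  by_contra hc
  have := hmax (insert s G) (mem_filter.mpr ⟨mem_univ _, g1.trans (subset_insert _ _),
    fun t ht => (mem_insert.mp ht).elim (fun h => h ▸ hs) (g2 t), hc⟩)
  rw [card_insert_of_notMem hsG] at this
  omega

theorem lower {n m r : ℕ} (hr : 2 ≤ r) (F : Finset (Finset (Fin m)))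
    (hF : ∀ e ∈ F, ∃ f ∈ F, f ≠ e ∧ 2 ≤ (e ∩ f).card) (G : Finset (Finset (Fin n)))
    (h1 : ∀ s ∈ G, s.card = r) (h2 : ¬ ∃ f : Fin m ↪ Fin n, ∀ e ∈ F, e.map f ∈ G)
    (h3 : ∀ s : Finset (Fin n), s.card = r → s ∉ G →
      ∃ f : Fin m ↪ Fin n, ∀ e ∈ F, e.map f ∈ insert s G) (hn : 2 * r ≤ n) :
    n ^ 2 ≤ 4 * r ^ 4 * G.card := by
  have hP : (G.biUnion (fun s => s ×ˢ s)).card ≤ G.card * r ^ 2 :=
    card_biUnion_le_card_mul _ _ _ (fun s hs => by rw [card_product, h1 s hs, sq])
  have key := card_pairs_le (r := r) (powersetCard r (univ : Finset (Fin n)))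
    (G.biUnion (fun s => s ×ˢ s)) (fun s hs => (mem_powersetCard.mp hs).2) (by
      intro s hs
      have hs' := (mem_powersetCard.mp hs).2
      have : ∃ g ∈ G, 2 ≤ (s ∩ g).card := by
        by_cases hsG : s ∈ G
        · exact ⟨s, hsG, by rw [inter_self, hs']; exact hr⟩
        · obtain ⟨φ, hφ⟩ := h3 s hs' hsG
          have : ∃ e ∈ F, e.map φ = s := by
            by_contra hc
            exact h2 ⟨φ, fun e he => (mem_insert.mp (hφ e he)).resolve_left
              (fun h => hc ⟨e, he, h⟩)⟩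
          obtain ⟨e, he, rfl⟩ := this
          obtain ⟨f, hf, hfe, hc⟩ := hF e he
          refine ⟨f.map φ, (mem_insert.mp (hφ f hf)).resolve_left
            (fun h => hfe (map_injective φ h)), ?_⟩
          rwa [← map_inter, card_map]
      obtain ⟨g, hg, hc⟩ := this
      obtain ⟨x, hx, y, hy, hxy⟩ := one_lt_card.mp hc
      exact ⟨(x, y), mem_biUnion.mpr ⟨g, hg, mem_product.mpr
        ⟨(mem_inter.mp hx).2, (mem_inter.mp hy).2⟩⟩, hxy, (mem_inter.mp hx).1,
        (mem_inter.mp hy).1⟩)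
  rw [card_powersetCard, card_univ, Fintype.card_fin] at key
  obtain ⟨k, rfl⟩ := Nat.exists_eq_add_of_le' hr
  have e1 := Nat.choose_succ_right_eq n (k + 1)
  have e2 := Nat.choose_succ_right_eq n k
  have hpos : 0 < n.choose k := Nat.choose_pos (by omega)
  rw [Nat.add_sub_cancel] at key
  obtain ⟨d, rfl⟩ : ∃ d, n = k + 1 + d := ⟨n - (k + 1), by omega⟩
  rw [show k + 1 + d - (k + 1) = d by omega] at e1
  rw [show k + 1 + d - k = d + 1 by omega] at e2
  set c0 := (k + 1 + d).choose k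
  set c1 := (k + 1 + d).choose (k + 1)
  set c2 := (k + 1 + d).choose (k + 1 + 1)
  set p := (G.biUnion (fun s => s ×ˢ s)).card
  have e3 : c0 * ((d + 1) * d) ≤ c0 * (p * ((k + 2) * (k + 1))) := by
    calc c0 * ((d + 1) * d) = (c0 * (d + 1)) * d := by ring
      _ = (c1 * d) * (k + 1) := by rw [← e2]; ring
      _ = c2 * (k + 1 + 1) * (k + 1) := by rw [← e1]
      _ ≤ (p * c0) * (k + 1 + 1) * (k + 1) :=
          Nat.mul_le_mul_right _ (Nat.mul_le_mul_right _ key)
      _ = c0 * (p * ((k + 2) * (k + 1))) := by ring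
  have e4 := Nat.le_of_mul_le_mul_left e3 hpos
  have e5 : p * ((k + 2) * (k + 1)) ≤ G.card * (k + 2) ^ 2 * (k + 2) ^ 2 :=
    Nat.mul_le_mul hP (by nlinarith)
  have e6 : (k + 1 + d) ^ 2 ≤ 4 * ((d + 1) * d) := by
    have : k + 1 + d ≤ 2 * d := by omega
    nlinarith
  calc (k + 1 + d) ^ 2 ≤ 4 * ((d + 1) * d) := e6
    _ ≤ 4 * (G.card * (k + 2) ^ 2 * (k + 2) ^ 2) := Nat.mul_le_mul_left _ (e4.trans e5)
    _ = 4 * (k + 2) ^ 4 * G.card := by ring

section core
variable {m n r : ℕ} {S : Type} [DecidableEq S] (F : Finset (Finset (Fin m))) (e : Finset (Fin m))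
  (π : S → Fin n → Option (Fin m)) (hub : S → Fin m → Fin n)

open Classical in
/-- the amalgam of all systems -/
noncomputable def amal (r : ℕ) : Finset (Finset (Fin n)) :=
  univ.filter (fun s => s.card = r ∧ ∃ γ, ∃ f ∈ F, f ≠ e ∧ s.image (π γ) = f.image some)

variable {F e π hub}

theorem amal_free (hF : ∀ f ∈ F, f.card = r) (he : e ∈ F) (hr : 3 ≤ r)
    (hl : ∀ f ∈ F, f ≠ e → (e ∩ f).card ≤ 1)
    (hA : ∀ I : Set (Fin m), (∀ f ∈ F, ∀ x ∈ f, ∀ y ∈ f, x ∈ I → y ∈ I → x = y) →
      ¬ ∃ ψ : Fin m → Fin m, (∀ f ∈ F, (∀ (v : Fin m) (χ : Fin m → Bool),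
          (∀ g ∈ F, ∀ x ∈ g, ∀ y ∈ g, x ∉ I → y ∉ I → x ≠ v → y ≠ v → χ x = χ y) →
          ∃ x ∈ e, ∃ y ∈ f, x ∉ I ∧ y ∉ I ∧ x ≠ v ∧ y ≠ v ∧ χ x = χ y) →
          f.image ψ ∈ F.erase e) ∧
        (∀ x y, ψ x = ψ y → ψ x ∉ e → x = y) ∧ ∀ x ∈ I, ψ x ∈ e)
    (h1 : ∀ γ x w, w ∉ e → (π γ x = some w ↔ x = hub γ w))
    (h2 : ∀ γ w σ u, hub γ w = hub σ u → γ = σ)
    (h3 : ∀ T : Finset S, T.card ≤ F.card → ∀ γ ∈ T, ∀ σ ∈ T, γ ≠ σ → ∃ (χ : S → Bool) (z : Fin n),
      χ γ ≠ χ σ ∧ ∀ γ ∈ T, ∀ σ ∈ T, ∀ w ∉ e, ∀ a ∈ e,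
        π σ (hub γ w) = some a → hub γ w ≠ z → χ γ = χ σ) :
    ¬ ∃ φ : Fin m ↪ Fin n, ∀ f ∈ F, f.map φ ∈ amal F e π r := by
  classical
  rintro ⟨φ, hφ⟩
  have hφ' : ∀ f : F, ∃ γ, ∃ t ∈ F, t ≠ e ∧ (f.1.map φ).image (π γ) = t.image some :=
    fun f => (mem_filter.mp (hφ f f.2)).2.2
  choose g t ht hte hgt using hφ'
  obtain ⟨a0, ha0⟩ : e.Nonempty := card_pos.mp (by rw [hF e he]; omega)
  have hval : ∀ f : F, ∀ x ∈ f.1, ∃ u ∈ t f, π (g f) (φ x) = some u := by
    intro f x hx
    have : π (g f) (φ x) ∈ (t f).image some := by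
      rw [← hgt]; exact mem_image_of_mem _ (mem_map_of_mem _ hx)
    obtain ⟨u, hu, h⟩ := mem_image.mp this
    exact ⟨u, hu, h.symm⟩
  have hpre : ∀ f : F, ∀ u ∈ t f, ∃ x ∈ f.1, π (g f) (φ x) = some u := by
    intro f u hu
    have : some u ∈ (f.1.map φ).image (π (g f)) := by
      rw [hgt]; exact mem_image_of_mem _ hu
    obtain ⟨y, hy, h⟩ := mem_image.mp this
    obtain ⟨x, hx, rfl⟩ := mem_map.mp hy
    exact ⟨x, hx, h⟩
  have hinj : ∀ f : F, ∀ x ∈ f.1, ∀ y ∈ f.1, π (g f) (φ x) = π (g f) (φ y) → x = y := by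
    intro f x hx y hy h
    have : Set.InjOn (π (g f)) (f.1.map φ) := by
      rw [← card_image_iff, hgt, card_image_of_injective _ (Option.some_injective _), card_map,
        hF _ (ht f), hF _ f.2]
    exact φ.injective (this (mem_coe.mpr (mem_map_of_mem _ hx))
      (mem_coe.mpr (mem_map_of_mem _ hy)) h)
  let T : Finset S := univ.image g
  have hT : ∀ f, g f ∈ T := fun f => mem_image_of_mem _ (mem_univ f)
  let I : Set (Fin m) := {x | ¬ ∃ γ ∈ T, ∃ w ∉ e, φ x = hub γ w}
  have key : ∀ z, (π (g ⟨e, he⟩) (φ z)).getD a0 ∉ e →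
      φ z = hub (g ⟨e, he⟩) ((π (g ⟨e, he⟩) (φ z)).getD a0) := by
    intro z hz
    rw [← h1 _ _ _ hz]
    cases h : π (g ⟨e, he⟩) (φ z) with
    | none => rw [h] at hz; exact absurd ha0 hz
    | some u => rfl
  refine hA I ?_ ⟨fun x => (π (g ⟨e, he⟩) (φ x)).getD a0, fun f hf htie => ?_,
    fun x y hxy hx => ?_, fun x hx => ?_⟩
  · intro f hf x hx y hy hxI hyI
    obtain ⟨u, hu, hxu⟩ := hval ⟨f, hf⟩ x hx
    obtain ⟨u', hu', hyu⟩ := hval ⟨f, hf⟩ y hy
    have e1 : u ∈ e := by
      by_contra h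
      exact hxI ⟨_, hT _, u, h, (h1 _ _ _ h).mp hxu⟩
    have e2 : u' ∈ e := by
      by_contra h
      exact hyI ⟨_, hT _, u', h, (h1 _ _ _ h).mp hyu⟩
    have e3 : u = u' := card_le_one.mp (hl _ (ht ⟨f, hf⟩) (hte _)) u (mem_inter.mpr ⟨e1, hu⟩) u'
      (mem_inter.mpr ⟨e2, hu'⟩)
    exact hinj ⟨f, hf⟩ x hx y hy (by rw [hxu, hyu, e3])
  · have hone : g ⟨f, hf⟩ = g ⟨e, he⟩ := by
      by_contra hf0
      obtain ⟨χ, z, hχ, hlink⟩ := h3 T (card_image_le.trans (by simp)) _ (hT ⟨f, hf⟩) _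
        (hT ⟨e, he⟩) hf0
      obtain ⟨v, hv⟩ : ∃ v, ∀ x, φ x = z → x = v := by
        by_cases h : ∃ v, φ v = z
        · obtain ⟨v, rfl⟩ := h
          exact ⟨v, fun x hx => φ.injective hx⟩
        · exact ⟨a0, fun x hx => absurd ⟨x, hx⟩ h⟩
      let c : Fin m → Bool := fun x => if h : ∃ γ ∈ T, ∃ w ∉ e, φ x = hub γ w then χ h.choose
        else true
      have hc : ∀ x, ∀ γ ∈ T, ∀ w ∉ e, φ x = hub γ w → c x = χ γ := by
        intro x γ hγ w hw hx
        have h : ∃ γ ∈ T, ∃ w ∉ e, φ x = hub γ w := ⟨γ, hγ, w, hw, hx⟩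
        obtain ⟨-, w', -, h'⟩ := h.choose_spec
        simp only [c, dif_pos h]
        rw [h2 _ _ _ _ (h'.symm.trans hx)]
      have hcf : ∀ f : F, ∀ x ∈ f.1, x ∉ I → x ≠ v → c x = χ (g f) := by
        intro f x hx hxI hxv
        obtain ⟨γ, hγ, w, hw, hxw⟩ := not_not.mp hxI
        obtain ⟨u, -, hu⟩ := hval f x hx
        by_cases hue : u ∈ e
        · rw [hc x γ hγ w hw hxw]
          exact hlink γ hγ _ (hT f) w hw u hue (hxw ▸ hu) (fun h => hxv (hv x (hxw.trans h)))
        · exact hc x _ (hT f) u hue ((h1 _ _ _ hue).mp hu)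
      obtain ⟨x, hx, y, hy, x1, y1, x2, y2, hxy⟩ := htie v c
        (fun f hf x hx y hy hxI hyI hxv hyv =>
          (hcf ⟨f, hf⟩ x hx hxI hxv).trans (hcf ⟨f, hf⟩ y hy hyI hyv).symm)
      exact hχ (by rw [← hcf ⟨f, hf⟩ y hy y1 y2, ← hcf ⟨e, he⟩ x hx x1 x2, hxy])
    have : f.image (fun x => (π (g ⟨e, he⟩) (φ x)).getD a0) = t ⟨f, hf⟩ := by
      ext u
      rw [mem_image, ← hone]
      constructor
      · rintro ⟨x, hx, rfl⟩
        obtain ⟨u, hu, h⟩ := hval ⟨f, hf⟩ x hx
        rwa [h]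
      · intro hu
        obtain ⟨x, hx, h⟩ := hpre ⟨f, hf⟩ u hu
        exact ⟨x, hx, by rw [h]; rfl⟩
    rw [this]
    exact mem_erase.mpr ⟨hte _, ht _⟩
  · simp only at hxy hx
    apply φ.injective
    rw [key x hx, key y (hxy ▸ hx), hxy]
  · by_contra h
    exact hx ⟨_, hT _, _, h, key x h⟩

omit [DecidableEq S] in
theorem amal_serve (hF : ∀ f ∈ F, f.card = r) (he : e ∈ F)
    (h1 : ∀ γ x w, w ∉ e → (π γ x = some w ↔ x = hub γ w)) {s : Finset (Fin n)} {γ : S}
    {u : Fin m → Fin n} (hu : ∀ a ∈ e, π γ (u a) = some a) (hs : e.image u = s) :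
    ∃ φ : Fin m ↪ Fin n, ∀ f ∈ F, f.map φ ∈ insert s (amal F e π r) := by
  classical
  let φ : Fin m → Fin n := fun x => if x ∈ e then u x else hub γ x
  have hφ : ∀ x, π γ (φ x) = some x := by
    intro x
    by_cases hx : x ∈ e
    · simp only [φ, if_pos hx, hu x hx]
    · simp only [φ, if_neg hx, (h1 γ _ x hx).mpr rfl]
  have hi : Function.Injective φ := fun x y h =>
    Option.some_injective _ (by rw [← hφ x, ← hφ y, h])
  refine ⟨⟨φ, hi⟩, fun f hf => ?_⟩
  by_cases hfe : f = e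
  · subst hfe
    have : f.map ⟨φ, hi⟩ = s := by
      rw [map_eq_image, ← hs]
      exact image_congr (fun x hx => if_pos hx)
    rw [this]
    exact mem_insert_self _ _
  · refine mem_insert_of_mem (mem_filter.mpr ⟨mem_univ _, by rw [card_map, hF f hf], γ, f, hf,
      hfe, ?_⟩)
    rw [map_eq_image, image_image]
    exact image_congr (fun x _ => hφ x)

omit [DecidableEq S] in
theorem amal_card {s : Finset (Fin n)} (hs : s ∈ amal F e π r) : s.card = r := by
  classical
  exact (mem_filter.mp hs).2.1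

end core

end Pool.Agent.MP_038f7f_co.H80

end MrgPart1

-- ======== part 2: formerly Pool.Agent.MP_038f7f_co.h80.Build
section MrgPart2

set_option autoImplicit false

namespace Pool.Agent.MP_038f7f_co.H80

open Finset

theorem exists_bit {n : ℕ} {x y : Fin n} (h : x ≠ y) :
    ∃ i : Fin (Nat.log 2 n + 1), (x : ℕ).testBit i ≠ (y : ℕ).testBit i := by
  by_contra hc
  apply h
  apply Fin.ext
  apply Nat.eq_of_testBit_eq
  intro i
  by_cases hi : i < Nat.log 2 n + 1
  · by_contra h'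
    exact hc ⟨⟨i, hi⟩, h'⟩
  · have h1 : n < 2 ^ (Nat.log 2 n + 1) := Nat.lt_pow_succ_log_self (by norm_num) n
    have h2 : 2 ^ (Nat.log 2 n + 1) ≤ 2 ^ i := Nat.pow_le_pow_right (by norm_num) (by omega)
    rw [Nat.testBit_lt_two_pow (by omega), Nat.testBit_lt_two_pow (by omega)]

/-- hash colours -/
abbrev Col (m n : ℕ) : Type :=
  (Fin m × Fin m → Fin (Nat.log 2 n + 1)) × ((Fin m × Fin m → Bool) → Fin m)

def hash {m n : ℕ} (j : Col m n) (x : Fin n) : Fin m := j.2 (fun p => (x : ℕ).testBit (j.1 p))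

theorem exists_hash {m n : ℕ} (e : Finset (Fin m)) (u : Fin m → Fin n) (hu : Set.InjOn u e)
    (a0 : Fin m) : ∃ j : Col m n, ∀ a ∈ e, hash j (u a) = a := by
  classical
  have : ∀ p : Fin m × Fin m, ∃ i : Fin (Nat.log 2 n + 1), u p.1 ≠ u p.2 →
      (u p.1 : ℕ).testBit i ≠ (u p.2 : ℕ).testBit i := by
    intro p
    by_cases h : u p.1 = u p.2
    · exact ⟨0, fun h' => absurd h h'⟩
    · obtain ⟨i, hi⟩ := exists_bit h
      exact ⟨i, fun _ => hi⟩
  choose t ht using this
  refine ⟨(t, fun b => if h : ∃ a ∈ e, (fun p => (u a : ℕ).testBit (t p)) = b then h.choose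
    else a0), fun a ha => ?_⟩
  have h : ∃ a' ∈ e, (fun p => (u a' : ℕ).testBit (t p)) = fun p => (u a : ℕ).testBit (t p) :=
    ⟨a, ha, rfl⟩
  simp only [hash, dif_pos h]
  obtain ⟨h1, h2⟩ := h.choose_spec
  by_contra hne
  exact ht (h.choose, a) (fun h' => hne (hu h1 ha h')) (congrFun h2 (h.choose, a))

theorem card_col (m n : ℕ) : Fintype.card (Col m n) =
    (Nat.log 2 n + 1) ^ (m * m) * m ^ (2 ^ (m * m)) := by
  simp [Fintype.card_prod]

theorem upper {m r : ℕ} {F : Finset (Finset (Fin m))} {e : Finset (Fin m)}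
    (hF : ∀ f ∈ F, f.card = r) (he : e ∈ F) (hr : 3 ≤ r)
    (hl : ∀ f ∈ F, f ≠ e → (e ∩ f).card ≤ 1)
    (hA : ∀ I : Set (Fin m), (∀ f ∈ F, ∀ x ∈ f, ∀ y ∈ f, x ∈ I → y ∈ I → x = y) →
      ¬ ∃ ψ : Fin m → Fin m, (∀ f ∈ F, (∀ (v : Fin m) (χ : Fin m → Bool),
          (∀ g ∈ F, ∀ x ∈ g, ∀ y ∈ g, x ∉ I → y ∉ I → x ≠ v → y ≠ v → χ x = χ y) →
          ∃ x ∈ e, ∃ y ∈ f, x ∉ I ∧ y ∉ I ∧ x ≠ v ∧ y ≠ v ∧ χ x = χ y) →
          f.image ψ ∈ F.erase e) ∧
        (∀ x y, ψ x = ψ y → ψ x ∉ e → x = y) ∧ ∀ x ∈ I, ψ x ∈ e) :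
    ∃ C K : ℕ, ∀ n : ℕ, ∃ G : Finset (Finset (Fin n)), (∀ s ∈ G, s.card = r) ∧
      (¬ ∃ f : Fin m ↪ Fin n, ∀ e ∈ F, e.map f ∈ G) ∧
      (∀ s : Finset (Fin n), s.card = r → s ∉ G →
        ∃ f : Fin m ↪ Fin n, ∀ e ∈ F, e.map f ∈ insert s G) ∧
      G.card ≤ C * (Nat.log 2 n + 1) ^ K * n ^ (r - 2) := by
  classical
  obtain ⟨a0, ha0⟩ : e.Nonempty := card_pos.mp (by rw [hF e he]; omega)
  have hm : 0 < m := Fin.pos a0
  refine ⟨(3 * m * (3 * m + 2) ^ F.card * (m ^ (2 ^ (m * m))) ^ (2 * F.card + 1)) ^ 2,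
    m * m * (2 * F.card + 1) * 2, fun n => ?_⟩
  set j := Fintype.card (Col m n) with hj
  have hj1 : 1 ≤ j := by
    have : Nonempty (Fin m) := ⟨a0⟩
    exact Fintype.card_pos
  set β := (1 + (m * j + (2 * m * j ^ 2 + 1))) ^ F.card with hβ
  let S := Col m n × Fin (2 * β + 1)
  have hS : Fintype.card (S × Fin m) = j * (2 * β + 1) * m := by
    simp only [S, Fintype.card_prod (Col m n × Fin (2 * β + 1)),
      Fintype.card_prod (Col m n), Fintype.card_fin, ← hj]
  have hbound : Fintype.card (S × Fin m) ^ 2 ≤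
      (3 * m * (3 * m + 2) ^ F.card * (m ^ (2 ^ (m * m))) ^ (2 * F.card + 1)) ^ 2 *
        (Nat.log 2 n + 1) ^ (m * m * (2 * F.card + 1) * 2) := by
    rw [pow_mul _ _ 2, ← mul_pow]
    apply Nat.pow_le_pow_left
    have h1 : β ≤ ((3 * m + 2) * j ^ 2) ^ F.card := by
      apply Nat.pow_le_pow_left
      have : j ≤ j ^ 2 := by nlinarith
      nlinarith
    have h2 : 1 ≤ β := Nat.one_le_pow _ _ (by omega)
    calc Fintype.card (S × Fin m) = j * (2 * β + 1) * m := hS
      _ ≤ j * (3 * ((3 * m + 2) * j ^ 2) ^ F.card) * m := by gcongr; omega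
      _ = 3 * m * (3 * m + 2) ^ F.card * j ^ (2 * F.card + 1) := by
          rw [mul_pow, ← pow_mul]; ring
      _ = _ := by rw [hj, card_col, mul_pow, ← pow_mul]; ring
  by_cases hn : Fintype.card (S × Fin m) ≤ n
  swap
  · obtain ⟨G, -, g1, g2, g3⟩ := exists_saturated (n := n) (r := r) F ∅ (by simp)
      (fun ⟨φ, hφ⟩ => notMem_empty _ (hφ e he))
    refine ⟨G, g1, g2, g3, ?_⟩
    have h1 : G.card ≤ n ^ r := by
      refine (card_le_card (t := powersetCard r univ) (fun s hs => mem_powersetCard.mpr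
        ⟨subset_univ _, g1 s hs⟩)).trans ?_
      rw [card_powersetCard, card_univ, Fintype.card_fin]
      exact Nat.choose_le_pow _ _
    have h2 : n ^ r = n ^ 2 * n ^ (r - 2) := by rw [← pow_add]; congr 1; omega
    rw [h2] at h1
    exact h1.trans (Nat.mul_le_mul_right _
      ((Nat.pow_le_pow_left (not_le.mp hn).le 2).trans hbound))
  obtain ⟨ι⟩ : Nonempty (S × Fin m ↪ Fin n) :=
    Function.Embedding.nonempty_of_card_le (by rwa [Fintype.card_fin])
  obtain ⟨t, ht, hloop, hsep⟩ := greedy (Λ := (S × Fin m) × Col m n) (fun l => l.1.1)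
    (fun l => l.2) (fun γ : S => γ.1) (m * j) (2 * m * j ^ 2 + 1) (2 * β + 1) F.card
    (fun x => by
      have : (univ.filter (fun l : (S × Fin m) × Col m n => l.1.1 = x)) ⊆
          (univ : Finset (Fin m × Col m n)).image (fun q => ((x, q.1), q.2)) := by
        intro l hl
        have := (mem_filter.mp hl).2
        exact mem_image.mpr ⟨(l.1.2, l.2), mem_univ _, by rw [← this]⟩
      refine (card_le_card this).trans (card_image_le.trans ?_)
      rw [card_univ, Fintype.card_prod, Fintype.card_fin])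
    (fun c => by
      have : (univ : Finset (Fin (2 * β + 1))).image (fun q => ((c, q) : S)) ⊆
          univ.filter (fun x : S => x.1 = c) := by
        intro l hl
        obtain ⟨q, -, rfl⟩ := mem_image.mp hl
        exact mem_filter.mpr ⟨mem_univ _, rfl⟩
      refine le_trans ?_ (card_le_card this)
      rw [card_image_of_injective _ (fun a b h => (Prod.mk.inj h).2), card_univ, Fintype.card_fin])
    (by
      rw [Fintype.card_prod, hS, ← hj, ← hβ]
      nlinarith [Nat.zero_le (m * j ^ 2), Nat.zero_le (m * j ^ 2 * β)])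
  let π : S → Fin n → Option (Fin m) := fun σ => Function.extend ι
    (fun q => if q.1 = σ ∧ q.2 ∉ e then some q.2 else if t (q, σ.1) = σ then some a0 else none)
    (fun x => if hash σ.1 x ∈ e then some (hash σ.1 x) else none)
  have hπ1 : ∀ σ q, π σ (ι q) = if q.1 = σ ∧ q.2 ∉ e then some q.2 else
      if t (q, σ.1) = σ then some a0 else none := fun σ q => ι.injective.extend_apply _ _ _
  have hπ2 : ∀ σ x, (¬ ∃ q, ι q = x) → π σ x =
      if hash σ.1 x ∈ e then some (hash σ.1 x) else none :=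
    fun σ x h => Function.extend_apply' _ _ _ h
  have h1 : ∀ γ x w, w ∉ e → (π γ x = some w ↔ x = ι (γ, w)) := by
    intro γ x w hw
    constructor
    · intro h
      by_cases hx : ∃ q, ι q = x
      · obtain ⟨q, rfl⟩ := hx
        rw [hπ1] at h
        split_ifs at h with c1 c2
        · rw [← c1.1, ← Option.some_injective _ h]
        · exact absurd (Option.some_injective _ h ▸ ha0) hw
      · rw [hπ2 _ _ hx] at h
        split_ifs at h with c1
        exact absurd (Option.some_injective _ h ▸ c1) hw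
    · rintro rfl
      rw [hπ1, if_pos ⟨rfl, hw⟩]
  have hfree := amal_free (π := π) (hub := fun γ w => ι (γ, w)) hF he hr hl hA h1
    (fun γ w σ u h => (Prod.mk.inj (ι.injective h)).1) (by
      intro T hT γ hγ σ hσ hγσ
      obtain ⟨χ, o, x1, x2⟩ := hsep T hT γ hγ σ hσ hγσ
      refine ⟨χ, ι ((o.map Prod.fst).getD (γ, a0)), x1, fun γ' hγ' σ' hσ' w hw a ha h hz => ?_⟩
      rw [hπ1] at h
      split_ifs at h with c1 c2
      · rw [show γ' = σ' from c1.1]
      · have := x2 ((γ', w), σ'.1) (mem_univ _) hγ' (by rwa [c2]) (by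
          rintro rfl
          exact hz rfl)
        rwa [c2] at this)
  obtain ⟨G, g0, g1, g2, g3⟩ := exists_saturated (r := r) F _
    (fun s hs => amal_card hs) hfree
  refine ⟨G, g1, g2, g3, ?_⟩
  have key := card_pairs_le G ((univ.map ι) ×ˢ (univ.map ι)) g1 (by
    intro s hs
    by_contra hc
    have hone : ∀ q q', ι q ∈ s → ι q' ∈ s → q = q' := by
      intro q q' hq hq'
      by_contra hne
      exact hc ⟨(ι q, ι q'), mem_product.mpr ⟨mem_map_of_mem _ (mem_univ _),
        mem_map_of_mem _ (mem_univ _)⟩, fun h => hne (ι.injective h), hq, hq'⟩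
    have hserve : ∃ (γ : S) (u : Fin m → Fin n), (∀ a ∈ e, π γ (u a) = some a) ∧
        e.image u = s := by
      have hcard : e.card = s.card := by rw [hF e he, g1 s hs]
      obtain ⟨u0, hu0⟩ : ∃ u0 : Fin m → Fin n, Set.BijOn u0 e s := by
        have : Nonempty (Fin n) := ⟨ι (((fun _ => 0, fun _ => a0), 0), a0)⟩
        let b := Finset.equivOfCardEq hcard
        refine ⟨fun x => if h : x ∈ e then b ⟨x, h⟩ else Classical.arbitrary _, fun x hx => ?_,
          fun x hx y hy h => ?_, fun y hy => ?_⟩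
        · simp only [dif_pos (mem_coe.mp hx)]
          exact (b _).2
        · simp only [dif_pos (mem_coe.mp hx), dif_pos (mem_coe.mp hy)] at h
          exact congrArg Subtype.val (b.injective (Subtype.ext h))
        · refine ⟨(b.symm ⟨y, hy⟩).1, (b.symm ⟨y, hy⟩).2, ?_⟩
          simp
      by_cases hq : ∃ q, ι q ∈ s
      · obtain ⟨q, hq⟩ := hq
        obtain ⟨a1, ha1, hu1⟩ := hu0.surjOn hq
        have hb : Set.BijOn (Equiv.swap a0 a1) e e := by
          have hmap : Set.MapsTo (Equiv.swap a0 a1) e e := by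
            intro x hx
            rw [Equiv.swap_apply_def]
            split_ifs
            exacts [ha1, ha0, hx]
          exact ⟨hmap, (Equiv.injective _).injOn, fun y hy =>
            ⟨_, hmap hy, Equiv.swap_apply_self _ _ _⟩⟩
        have hu := hu0.comp hb
        have hua : (u0 ∘ Equiv.swap a0 a1) a0 = ι q := by simp [hu1]
        obtain ⟨c, hc⟩ := exists_hash e _ hu.injOn a0
        refine ⟨t (q, c), u0 ∘ Equiv.swap a0 a1, fun a ha => ?_, ?_⟩
        · by_cases haa : a = a0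
          · rw [haa, hua, hπ1, if_neg (fun h => hloop (q, c) (mem_univ _) h.1), ht, if_pos rfl]
          · rw [hπ2, ht, hc a ha, if_pos ha]
            rintro ⟨q', hq'⟩
            have := hone q' q (hq' ▸ hu.mapsTo ha) hq
            exact haa (hu.injOn ha ha0 (by rw [hua, ← hq', this]))
        · rw [← coe_inj, coe_image]
          exact hu.image_eq
      · obtain ⟨c, hc⟩ := exists_hash e _ hu0.injOn a0
        refine ⟨(c, 0), u0, fun a ha => ?_, ?_⟩
        · rw [hπ2, hc a ha, if_pos ha]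
          rintro ⟨q', hq'⟩
          exact hq ⟨q', hq' ▸ hu0.mapsTo ha⟩
        · rw [← coe_inj, coe_image]
          exact hu0.image_eq
    obtain ⟨γ, u, hu, hus⟩ := hserve
    obtain ⟨φ, hφ⟩ := amal_serve (r := r) (hub := fun γ w => ι (γ, w)) hF he h1 hu hus
    exact g2 ⟨φ, fun f hf => insert_subset hs g0 (hφ f hf)⟩)
  rw [card_product, card_map, card_univ, ← sq] at key
  exact key.trans (Nat.mul_le_mul hbound (Nat.choose_le_pow _ _))

end Pool.Agent.MP_038f7f_co.H80

end MrgPart2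

-- marker of a merged file
example : 731051 + 486411 = 731051 + 486411 := rfl
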